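import Pool.Agent.Helper51.AN.Goals

/-! Packet AN-UNP (4b). -/

set_option autoImplicit false

namespace Pool.Agent.Helper84.AN

open Pool.Agent.Helper51.AN

universe u v w

section

variable {G : Type u} [Group G] {K : Type v} [Field K] {V : Type w} [AddCommGroup V] [Module K V]

/-- The representation on an invariant subspace. -/
def resR (ρ : G →* Module.End K V) (W : Submodule K V) (hW : Inv ρ W) : G →* Module.End K W where
  toFun g := (ρ g).restrict (hW g)
  map_one' := by
    ext x
    show (ρ 1) (x : V) = x
    rw [map_one]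
    rfl
  map_mul' a b := by
    ext x
    show (ρ (a * b)) (x : V) = ρ a (ρ b x)
    rw [map_mul]
    rfl

theorem resR_apply (ρ : G →* Module.End K V) (W : Submodule K V) (hW : Inv ρ W) (g : G) (x : W) :
    ((resR ρ W hW g x : W) : V) = ρ g x := rfl

/-- The representation on a quotient. -/
def quoR (ρ : G →* Module.End K V) (W : Submodule K V) (hW : Inv ρ W) :
    G →* Module.End K (V ⧸ W) where
  toFun g := W.mapQ W (ρ g) (fun x hx => hW g x hx)
  map_one' := by
    refine LinearMap.ext fun y => ?_
    obtain ⟨x, rfl⟩ := W.mkQ_surjective y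
    show W.mkQ (ρ 1 x) = W.mkQ x
    rw [map_one]
    rfl
  map_mul' a b := by
    refine LinearMap.ext fun y => ?_
    obtain ⟨x, rfl⟩ := W.mkQ_surjective y
    show W.mkQ (ρ (a * b) x) = W.mkQ (ρ a (ρ b x))
    rw [map_mul]
    rfl

theorem quoR_apply (ρ : G →* Module.End K V) (W : Submodule K V) (hW : Inv ρ W) (g : G) (x : V) :
    quoR ρ W hW g (W.mkQ x) = W.mkQ (ρ g x) := rfl

/-- An eigenvalue on the quotient is an eigenvalue on the space. -/
theorem tor_quo [IsAlgClosed K] [Module.Finite K V] (ρ : G →* Module.End K V) (W : Submodule K V)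
    (hW : Inv ρ W) (h : ∀ g, TorOn (ρ g) ⊤) (g : G) : TorOn (quoR ρ W hW g) ⊤ := by
  intro μ y _ hy0 hy
  -- `μ` is an eigenvalue of `ρ g`, as `ρ g - μ` is not surjective
  by_contra hμ
  have hinj : Function.Injective (ρ g - μ • (1 : Module.End K V)) := by
    rw [injective_iff_map_eq_zero]
    intro x hx
    by_contra hx0
    apply hμ
    refine h g μ x trivial hx0 ?_
    have : ρ g x - μ • x = 0 := hx
    exact sub_eq_zero.1 this
  have hWinj : Function.Injective ((ρ g - μ • (1 : Module.End K V)).restrict
      (p := W) (q := W) (fun x hx => W.sub_mem (hW g x hx) (W.smul_mem _ hx))) := by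
    intro a b hab
    apply Subtype.ext
    apply hinj
    exact congrArg Subtype.val hab
  have hWsurj := LinearMap.surjective_of_injective hWinj
  obtain ⟨x, rfl⟩ := W.mkQ_surjective y
  rw [quoR_apply] at hy
  have hmem : (ρ g - μ • (1 : Module.End K V)) x ∈ W := by
    have h1 : W.mkQ (ρ g x - μ • x) = 0 := by rw [map_sub, map_smul, hy, sub_self]
    have h2 := (Submodule.Quotient.mk_eq_zero W).1 h1
    exact h2
  obtain ⟨z, hz⟩ := hWsurj ⟨_, hmem⟩
  have hzx : (z : V) = x := hinj (congrArg Subtype.val hz)
  apply hy0
  rw [← hzx]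
  exact (Submodule.Quotient.mk_eq_zero W).2 z.2

end

theorem unp (hI : IrrStmt.{u, v, w}) (hT : FtnStmt.{u}) : UnpStmt.{u, v, w} := by
  classical
  intro G _ K _ _
  have main : ∀ n : ℕ, ∀ (V : Type w) [AddCommGroup V] [Module K V] [Module.Finite K V]
      (ρ : G →* Module.End K V), Module.finrank K V = n → Group.FG G → NilA ρ →
      (∀ g, TorOn (ρ g) ⊤) →
      ∃ U : Subgroup G, U.FiniteIndex ∧ ∃ (n : ℕ) (F : ℕ → Submodule K V), F 0 = ⊥ ∧ F n = ⊤ ∧
        ∀ i, ∀ g ∈ U, ∀ x ∈ F (i + 1), ρ g x - x ∈ F i := by
    intro n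
    induction n using Nat.strong_induction_on with
    | _ n ih =>
    intro V _ _ _ ρ hn hG hnil htor
    by_cases hirr : ∀ W : Submodule K V, Inv ρ W → W = ⊥ ∨ W = ⊤
    · -- irreducible
      rcases subsingleton_or_nontrivial V with hs | hnt
      · refine ⟨⊤, inferInstance, 0, fun _ => ⊥, rfl, ?_, ?_⟩
        · exact Subsingleton.elim _ _
        · intro i g _ x _
          rw [Subsingleton.elim (ρ g x - x) 0]
          exact Submodule.zero_mem _
      · obtain ⟨m, hm, hmσ⟩ := hI G K V ρ hnil hirr
        have htors : ∀ g : G, ∃ k : ℕ, 0 < k ∧ ρ g ^ k = 1 := by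
          intro g
          obtain ⟨σ, hσ⟩ := hmσ g
          obtain ⟨μ, hμ⟩ := Module.End.exists_eigenvalue (ρ g)
          obtain ⟨x, hx⟩ := hμ.exists_hasEigenvector
          obtain ⟨k, hk, hk1⟩ := htor g μ x trivial hx.2 hx.apply_eq_smul
          have hpow : ∀ j : ℕ, (ρ g ^ j) x = μ ^ j • x := by
            intro j
            induction j with
            | zero => simp
            | succ j ihj =>
              rw [pow_succ', Module.End.mul_apply, ihj, map_smul, hx.apply_eq_smul, smul_smul,
                pow_succ]
          have hσμ : σ = μ ^ m := by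
            have h1 := hpow m
            rw [hσ] at h1
            have h2 : σ • x = μ ^ m • x := h1
            have h3 : (σ - μ ^ m) • x = 0 := by rw [sub_smul, h2, sub_self]
            rcases smul_eq_zero.1 h3 with h4 | h4
            · exact sub_eq_zero.1 h4
            · exact absurd h4 hx.2
          refine ⟨m * k, Nat.mul_pos hm hk, ?_⟩
          rw [pow_mul, hσ, hσμ, smul_pow, one_pow, ← pow_mul, Nat.mul_comm m k, pow_mul, hk1,
            one_pow, one_smul]
        have hker : ρ.ker.FiniteIndex := by
          have hFG : Group.FG (G ⧸ ρ.ker) := QuotientGroup.fg _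
          have hNil : Group.IsNilpotent (G ⧸ ρ.ker) := by
            obtain ⟨c, hc⟩ := hnil
            rw [Subgroup.nilpotent_iff_lowerCentralSeries]
            refine ⟨c, ?_⟩
            have h1 := Subgroup.map_lowerCentralSeries (⊤ : Subgroup G) (QuotientGroup.mk' ρ.ker) c
            rw [Subgroup.map_top_of_surjective _ (QuotientGroup.mk'_surjective _)] at h1
            rw [← h1, Subgroup.map_eq_bot_iff, QuotientGroup.ker_mk']
            intro g hg
            exact MonoidHom.mem_ker.2 (hc g hg)
          have hfin : Finite (G ⧸ ρ.ker) := by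
            refine hT _ hFG hNil ?_
            intro q
            obtain ⟨g, rfl⟩ := QuotientGroup.mk_surjective q
            obtain ⟨k, hk, hk1⟩ := htors g
            refine ⟨k, hk, ?_⟩
            rw [← QuotientGroup.mk_pow, QuotientGroup.eq_one_iff, MonoidHom.mem_ker, map_pow, hk1]
          exact Subgroup.finiteIndex_of_finite_quotient
        refine ⟨ρ.ker, hker, 1, fun i => if i = 0 then ⊥ else ⊤, rfl, rfl, ?_⟩
        intro i g hg x _
        have : ρ g = 1 := MonoidHom.mem_ker.1 hg
        rw [this]
        show x - x ∈ _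
        rw [sub_self]
        exact Submodule.zero_mem _
    · push Not at hirr
      obtain ⟨W, hW, hWb, hWt⟩ := hirr
      have hlt1 : Module.finrank K W < n := by
        rw [← hn]
        exact Submodule.finrank_lt hWt
      have hlt2 : Module.finrank K (V ⧸ W) < n := by
        have h1 := Submodule.finrank_quotient_add_finrank W
        have h2 : 0 < Module.finrank K W := by
          rw [Module.finrank_pos_iff]
          exact Submodule.nontrivial_iff_ne_bot.2 hWb
        omega
      obtain ⟨c, hc⟩ := hnil
      obtain ⟨U1, hU1, n1, F1, a1, b1, c1⟩ := ih _ hlt1 W (resR ρ W hW) rfl hG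
        ⟨c, fun g hg => by
          refine LinearMap.ext fun x => Subtype.ext ?_
          rw [resR_apply, hc g hg]
          rfl⟩
        (fun g μ x _ hx0 hx => htor g μ x trivial (fun h => hx0 (Subtype.ext h))
          (congrArg Subtype.val hx))
      obtain ⟨U2, hU2, n2, F2, a2, b2, c2⟩ := ih _ hlt2 (V ⧸ W) (quoR ρ W hW) rfl hG
        ⟨c, fun g hg => by
          refine LinearMap.ext fun y => ?_
          obtain ⟨x, rfl⟩ := W.mkQ_surjective y
          rw [quoR_apply, hc g hg]
          rfl⟩
        (tor_quo ρ W hW htor)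
      refine ⟨U1 ⊓ U2, inferInstance, n1 + n2,
        fun i => if i ≤ n1 then (F1 i).map W.subtype else (F2 (i - n1)).comap W.mkQ, ?_, ?_, ?_⟩
      · simp only [Nat.zero_le, if_true, a1, Submodule.map_bot]
      · by_cases h : n1 + n2 ≤ n1
        · have h0 : n2 = 0 := by omega
          exfalso
          rw [h0, a2] at b2
          apply hWt
          rw [eq_top_iff]
          intro x _
          have h5 : W.mkQ x ∈ (⊤ : Submodule K (V ⧸ W)) := trivial
          rw [← b2, Submodule.mem_bot] at h5
          exact (Submodule.Quotient.mk_eq_zero W).1 h5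
        · simp only [if_neg h, Nat.add_sub_cancel_left, b2, Submodule.comap_top]
      · rintro i g ⟨hg1, hg2⟩ x hx
        by_cases h1 : i + 1 ≤ n1
        · simp only [if_pos h1] at hx
          simp only [if_pos (show i ≤ n1 by omega)]
          obtain ⟨y, hy, rfl⟩ := hx
          exact ⟨resR ρ W hW g y - y, c1 i g hg1 y hy, rfl⟩
        · simp only [if_neg h1] at hx
          have hx' : W.mkQ x ∈ F2 (i + 1 - n1) := hx
          have h2 : i + 1 - n1 = (i - n1) + 1 := by omega
          rw [h2] at hx'
          have h3 := c2 (i - n1) g hg2 _ hx'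
          rw [quoR_apply, ← map_sub] at h3
          by_cases h4 : i ≤ n1
          · have h5 : i - n1 = 0 := by omega
            have h6 : i = n1 := by omega
            rw [h5, a2, Submodule.mem_bot] at h3
            simp only [if_pos h4]
            rw [h6, b1]
            have h7 : ρ g x - x ∈ W := (Submodule.Quotient.mk_eq_zero W).1 h3
            exact ⟨⟨_, h7⟩, trivial, rfl⟩
          · simp only [if_neg h4]
            exact h3
  intro V _ _ _ ρ hG hnil htor
  exact main _ V ρ rfl hG hnil htor

end Pool.Agent.Helper84.AN
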